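import Mathlib

set_option autoImplicit false

open Set Filter Topology Cardinal

namespace Pool.Agent.N483.Fan

universe u

/-- the Menger property (called Hurewicz property in the problem) -/
def Menger (X : Type u) [TopologicalSpace X] : Prop :=
  ∀ U : ℕ → Set (Set X), (∀ n, ∀ u ∈ U n, IsOpen u) → (∀ n, ⋃₀ U n = Set.univ) →
    ∃ V : ℕ → Set (Set X), (∀ n, V n ⊆ U n ∧ (V n).Finite) ∧ (⋃ n, ⋃₀ V n) = Set.univ

/-- `C_p(X)` -/
abbrev Cp (X : Type u) [TopologicalSpace X] : Type u := {g : X → ℝ // Continuous g}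

/-- the countable sequential fan -/
abbrev SeqFan : Type :=
  Quot (fun p q : ℕ × OnePoint ℕ => p = q ∨ (p.2 = OnePoint.infty ∧ q.2 = OnePoint.infty))

/-- eventual domination of all functions by members of `D` -/
def Dominating (D : Set (ℕ → ℕ)) : Prop :=
  ∀ g : ℕ → ℕ, ∃ f ∈ D, ∀ᶠ n in atTop, g n ≤ f n

/-- the dominating number -/
noncomputable def dNumber : Cardinal.{0} := sInf {κ | ∃ D : Set (ℕ → ℕ), #D = κ ∧ Dominating D}

/-- no set splits all members of `R` -/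
def Reaping (R : Set (Set ℕ)) : Prop :=
  (∀ s ∈ R, s.Infinite) ∧ ∀ A : Set ℕ, ∃ s ∈ R, (s ∩ A).Finite ∨ (s \ A).Finite

/-- the reaping number -/
noncomputable def rNumber : Cardinal.{0} := sInf {κ | ∃ R : Set (Set ℕ), #R = κ ∧ Reaping R}

theorem exists_dominating : ∃ D : Set (ℕ → ℕ), #D = dNumber ∧ Dominating D := by
  have h : dNumber ∈ {κ | ∃ D : Set (ℕ → ℕ), #D = κ ∧ Dominating D} :=
    csInf_mem ⟨_, univ, rfl, fun g => ⟨g, mem_univ g, Eventually.of_forall fun _ => le_rfl⟩⟩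
  exact h

theorem not_dominating {F : Set (ℕ → ℕ)} (hF : #F < dNumber) :
    ∃ φ : ℕ → ℕ, ∀ f ∈ F, ∃ᶠ n in atTop, f n < φ n := by
  have h : ¬ Dominating F := by
    intro h
    exact absurd (csInf_le' (s := {κ | ∃ D : Set (ℕ → ℕ), #D = κ ∧ Dominating D})
      ⟨F, rfl, h⟩) (not_le.2 hF)
  unfold Dominating at h
  push Not at h
  obtain ⟨φ, hφ⟩ := h
  refine ⟨φ, fun f hf => ?_⟩
  exact hφ f hf

theorem not_reaping {R : Set (Set ℕ)} (hR : #R < rNumber) (hinf : ∀ s ∈ R, s.Infinite) :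
    ∃ A : Set ℕ, ∀ s ∈ R, (s ∩ A).Infinite ∧ (s \ A).Infinite := by
  have h : ¬ Reaping R := by
    intro h
    exact absurd (csInf_le' (s := {κ | ∃ D : Set (Set ℕ), #D = κ ∧ Reaping D})
      ⟨R, rfl, h⟩) (not_le.2 hR)
  unfold Reaping at h
  push Not at h
  obtain ⟨A, hA⟩ := h hinf
  exact ⟨A, fun s hs => hA s hs⟩

theorem aleph0_lt_dNumber : ℵ₀ < dNumber := by
  obtain ⟨D, hD, hdom⟩ := exists_dominating
  by_contra hcon
  rw [← hD, not_lt, le_aleph0_iff_set_countable] at hcon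
  obtain ⟨f0, hf0, -⟩ := hdom 0
  obtain ⟨e, he⟩ := hcon.exists_eq_range ⟨f0, hf0⟩
  obtain ⟨f, hf, hev⟩ := hdom (fun n => (∑ i ∈ Finset.range (n + 1), e i n) + 1)
  rw [he] at hf
  obtain ⟨i, rfl⟩ := hf
  obtain ⟨n, hn1, hn2⟩ := (hev.and (eventually_ge_atTop i)).exists
  have : e i n ≤ ∑ j ∈ Finset.range (n + 1), e j n :=
    Finset.single_le_sum (f := fun j => e j n) (fun _ _ => Nat.zero_le _)
      (Finset.mem_range.2 (by omega))
  omega

/-- the sequence of gaps -/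
theorem exists_seq {M : Set (ℕ → ℕ)} (hM : #M < dNumber) (θ : ℕ → ℕ) (hθ : Monotone θ) :
    ∃ q : ℕ → ℕ, (∀ t, θ (q t) < q (t + 1)) ∧
      ∀ g ∈ M, ∃ᶠ t in atTop, g (θ (q t)) ≤ q (t + 1) := by
  classical
  let mg : (ℕ → ℕ) → ℕ → ℕ := fun g n => ∑ k ∈ Finset.range (n + 1), g k
  have mg1 : ∀ g n, g n ≤ mg g n := fun g n =>
    Finset.single_le_sum (f := g) (fun _ _ => Nat.zero_le _) (Finset.mem_range.2 (by omega))
  have mg2 : ∀ g, Monotone (mg g) := by
    intro g a b hab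
    exact Finset.sum_le_sum_of_subset (Finset.range_subset_range.2 (by omega))
  let e : M × ℕ × ℕ → ℕ → ℕ := fun p t => (fun x => mg p.1.1 (θ x))^[t - p.2.2] p.2.1
  have hcard : #(range e) < dNumber := by
    refine mk_range_le.trans_lt ?_
    have h1 : #(M × ℕ × ℕ) = #M * ℵ₀ := by
      simp
    rw [h1]
    exact mul_lt_of_lt aleph0_lt_dNumber.le hM aleph0_lt_dNumber
  obtain ⟨φ, hφ⟩ := not_dominating hcard
  let q : ℕ → ℕ := fun t => Nat.rec (φ 0) (fun t c => max (φ (t + 1)) (θ c + 1)) t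
  have hq : ∀ t, q (t + 1) = max (φ (t + 1)) (θ (q t) + 1) := fun t => rfl
  have hqφ : ∀ t, φ t ≤ q t := by
    intro t
    cases t with
    | zero => exact le_rfl
    | succ t => rw [hq]; exact le_max_left _ _
  refine ⟨q, fun t => ?_, fun g hg => ?_⟩
  · rw [hq]
    exact lt_of_lt_of_le (Nat.lt_succ_self _) (le_max_right _ _)
  · by_contra hcon
    rw [not_frequently] at hcon
    obtain ⟨t0, ht0⟩ := eventually_atTop.1 hcon
    have key : ∀ k, q (t0 + k) ≤ (fun x => mg g (θ x))^[k] (q t0) := by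
      intro k
      induction k with
      | zero => exact le_rfl
      | succ k ih =>
        rw [Function.iterate_succ_apply']
        have h1 := ht0 (t0 + k) (by omega)
        have h2 : q (t0 + (k + 1)) = q (t0 + k + 1) := rfl
        rw [h2]
        calc q (t0 + k + 1) ≤ g (θ (q (t0 + k))) := by omega
          _ ≤ mg g (θ (q (t0 + k))) := mg1 _ _
          _ ≤ mg g (θ _) := mg2 _ (hθ ih)
    have h2 := hφ (e (⟨g, hg⟩, q t0, t0)) ⟨_, rfl⟩
    obtain ⟨n, hn1, hn2⟩ := (h2.and_eventually (eventually_ge_atTop t0)).exists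
    have h3 := key (n - t0)
    rw [show t0 + (n - t0) = n by omega] at h3
    have h4 : φ n ≤ e (⟨g, hg⟩, q t0, t0) n := (hqφ n).trans h3
    omega

/-- two sets, with long gaps, which together cover -/
theorem exists_pair {M : Set (ℕ → ℕ)} (hM : #M < dNumber) (hdr : dNumber ≤ rNumber)
    (h : ℕ → ℕ) : ∃ x : Bool → Set ℕ,
      (∀ n m, m ≤ h n → ∃ b, ∀ k, n ≤ k → k ≤ n + m → k ∈ x b) ∧
      (∀ b, (x b)ᶜ.Infinite) ∧
      ∀ b, ∀ g ∈ M, ∃ᶠ n in atTop, ∀ k, n ≤ k → k < g n → k ∉ x b := by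
  classical
  let θ : ℕ → ℕ := fun n => n + 1 + ∑ k ∈ Finset.range (n + 1), h k
  have hθ : Monotone θ := by
    intro a b hab
    have : ∑ k ∈ Finset.range (a + 1), h k ≤ ∑ k ∈ Finset.range (b + 1), h k :=
      Finset.sum_le_sum_of_subset (Finset.range_subset_range.2 (by omega))
    simp only [θ]
    omega
  have hθ2 : ∀ n k, k ≤ n → k + h k < θ n := by
    intro n k hk
    have : h k ≤ ∑ k ∈ Finset.range (n + 1), h k :=
      Finset.single_le_sum (f := h) (fun _ _ => Nat.zero_le _) (Finset.mem_range.2 (by omega))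
    simp only [θ]
    omega
  have hθ3 : ∀ n, n < θ n := fun n => by simp only [θ]; omega
  let M' : Set (ℕ → ℕ) := insert (fun n => n + 1) M
  have hM' : #M' < dNumber := by
    refine mk_insert_le.trans_lt ?_
    exact add_lt_of_lt aleph0_lt_dNumber.le hM (one_lt_aleph0.trans aleph0_lt_dNumber)
  obtain ⟨q, hq1, hq2⟩ := exists_seq hM' θ hθ
  have hqm : StrictMono q := strictMono_nat_of_lt_succ fun t => (hθ3 _).trans (hq1 t)
  let S : (ℕ → ℕ) → Set ℕ := fun g => {t | g (θ (q t)) ≤ q (t + 1)}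
  have hS : ∀ s ∈ S '' M', s.Infinite := by
    rintro _ ⟨g, hg, rfl⟩
    exact Nat.frequently_atTop_iff_infinite.1 (hq2 g hg)
  obtain ⟨A, hA⟩ := not_reaping ((mk_image_le.trans_lt hM').trans_le hdr) hS
  let A' : Bool → Set ℕ := fun b => if b then A else Aᶜ
  have hA' : ∀ b, ∀ g ∈ M', (S g ∩ A' b).Infinite := by
    intro b g hg
    obtain ⟨h1, h2⟩ := hA (S g) (mem_image_of_mem S hg)
    cases b with
    | true => exact h1
    | false => exact h2
  let x : Bool → Set ℕ := fun b => {k | ∀ t ∈ A' b, ¬ (θ (q t) ≤ k ∧ k < q (t + 1))}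
  have hgap : ∀ b, ∀ g ∈ M', ∃ᶠ n in atTop, ∀ k, n ≤ k → k < g n → k ∉ x b := by
    intro b g hg
    rw [frequently_atTop]
    intro n0
    obtain ⟨t, ⟨ht1, ht2⟩, ht3⟩ := (hA' b g hg).exists_gt n0
    refine ⟨θ (q t), ?_, fun k hk1 hk2 hkx => hkx t ht2 ⟨hk1, ?_⟩⟩
    · have h1 := hqm.id_le t
      have h2 := hθ3 (q t)
      simp only [id] at h1
      omega
    · have : g (θ (q t)) ≤ q (t + 1) := ht1
      omega
  refine ⟨x, fun n m hm => ?_, fun b => ?_, fun b g hg => hgap b g (mem_insert_of_mem _ hg)⟩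
  · by_contra hcon
    push Not at hcon
    obtain ⟨k1, hk1, hk1', hk1x⟩ := hcon true
    obtain ⟨k2, hk2, hk2', hk2x⟩ := hcon false
    simp only [x, mem_ofPred_eq, not_forall, not_not, exists_prop] at hk1x hk2x
    obtain ⟨t1, ht1, hk3, hk4⟩ := hk1x
    obtain ⟨t2, ht2, hk5, hk6⟩ := hk2x
    have hne : t1 ≠ t2 := by
      rintro rfl
      exact ht2 ht1
    rcases lt_or_gt_of_ne hne with hlt | hlt
    · have h1 : q (t1 + 1) ≤ q t2 := hqm.monotone hlt
      have h2 := hθ2 (q t2) n (by omega)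
      omega
    · have h1 : q (t2 + 1) ≤ q t1 := hqm.monotone hlt
      have h2 := hθ2 (q t1) n (by omega)
      omega
  · have h1 := hgap b _ (mem_insert (fun n => n + 1) M)
    refine Nat.frequently_atTop_iff_infinite.1 (h1.mono fun n hn => ?_)
    exact hn n le_rfl (Nat.lt_succ_self n)

end Pool.Agent.N483.Fan
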