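import Mathlib
import Pool.Agent.N483.Fan.Basic

set_option autoImplicit false

open Set Filter Topology Cardinal

namespace Pool.Agent.N483.Fan

theorem exists_reaping : ∃ R : Set (Set ℕ), #R = rNumber ∧ Reaping R := by
  have h : rNumber ∈ {κ | ∃ R : Set (Set ℕ), #R = κ ∧ Reaping R} := by
    refine csInf_mem ⟨_, {s | s.Infinite}, rfl, fun s hs => hs, fun A => ?_⟩
    rcases Set.finite_or_infinite A with h | h
    · exact ⟨Set.univ, Set.infinite_univ, Or.inl (by simpa using h)⟩
    · exact ⟨A, h, Or.inr (by simp)⟩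
  exact h

/-- countably many infinite sets can be split at once -/
theorem exists_split (s : ℕ → Set ℕ) (hs : ∀ i, (s i).Infinite) :
    ∃ A : Set ℕ, ∀ i, (s i ∩ A).Infinite ∧ (s i \ A).Infinite := by
  have hstep : ∀ j c : ℕ, ∃ a, a ∈ s j.unpair.1 ∧ c < a := fun j c =>
    (hs j.unpair.1).exists_gt c
  choose st hst1 hst2 using hstep
  -- two points at each step
  let w : ℕ → ℕ := fun j => Nat.rec 0 (fun j c => st (j / 2) c) j
  have hw : ∀ j, w (j + 1) = st (j / 2) (w j) := fun j => rfl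
  have hmono : StrictMono w := strictMono_nat_of_lt_succ fun j => by rw [hw]; exact hst2 _ _
  refine ⟨{n | ∃ j, n = w (2 * j + 1)}, fun i => ⟨?_, ?_⟩⟩
  · refine infinite_of_injective_forall_mem (f := fun l => w (2 * (Nat.pair i l) + 1))
      (fun a b hab => ?_) fun l => ⟨?_, _, rfl⟩
    · have h1 : 2 * Nat.pair i a + 1 = 2 * Nat.pair i b + 1 := hmono.injective hab
      have h2 : Nat.pair i a = Nat.pair i b := by omega
      exact (Nat.pair_eq_pair.1 h2).2
    · rw [hw]
      have h1 := hst1 (2 * (Nat.pair i l) / 2) (w (2 * (Nat.pair i l)))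
      rw [show 2 * (Nat.pair i l) / 2 = Nat.pair i l by omega] at h1 ⊢
      simpa using h1
  · refine infinite_of_injective_forall_mem (f := fun l => w (2 * (Nat.pair i l) + 2))
      (fun a b hab => ?_) fun l => ⟨?_, ?_⟩
    · have h1 : 2 * Nat.pair i a + 2 = 2 * Nat.pair i b + 2 := hmono.injective hab
      have h2 : Nat.pair i a = Nat.pair i b := by omega
      exact (Nat.pair_eq_pair.1 h2).2
    · rw [hw]
      have h1 := hst1 ((2 * (Nat.pair i l) + 1) / 2) (w (2 * (Nat.pair i l) + 1))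
      rw [show (2 * (Nat.pair i l) + 1) / 2 = Nat.pair i l by omega] at h1 ⊢
      simpa using h1
    · rintro ⟨j, hj⟩
      have h1 : 2 * Nat.pair i l + 2 = 2 * j + 1 := hmono.injective hj
      omega

theorem aleph0_lt_rNumber : ℵ₀ < rNumber := by
  obtain ⟨R, hR, hreap⟩ := exists_reaping
  by_contra hcon
  rw [← hR, not_lt, le_aleph0_iff_set_countable] at hcon
  obtain ⟨s0, hs0, -⟩ := hreap.2 ∅
  obtain ⟨e, he⟩ := hcon.exists_eq_range ⟨s0, hs0⟩
  obtain ⟨A, hA⟩ := exists_split e fun i => hreap.1 _ (by rw [he]; exact mem_range_self i)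
  obtain ⟨s, hs, h⟩ := hreap.2 A
  rw [he] at hs
  obtain ⟨i, rfl⟩ := hs
  rcases h with h | h
  · exact (hA i).1 h
  · exact (hA i).2 h

theorem dNumber_le_continuum : dNumber ≤ 𝔠 := by
  have h1 : dNumber ≤ #(Set.univ : Set (ℕ → ℕ)) := by
    refine csInf_le' ⟨Set.univ, rfl, fun g => ⟨g, mem_univ g, Eventually.of_forall fun _ => le_rfl⟩⟩
  refine h1.trans ?_
  simp

theorem dNumber_le_rNumber_of_CH (hCH : (ℵ₁ : Cardinal.{0}) = 𝔠) : dNumber ≤ rNumber := by
  refine dNumber_le_continuum.trans ?_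
  rw [← hCH, ← succ_aleph0]
  exact Order.succ_le_of_lt aleph0_lt_rNumber

end Pool.Agent.N483.Fan
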