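import Mathlib
import Pool.Agent.N483.Fan.Basic

set_option autoImplicit false

open Set Filter Topology Cardinal

namespace Pool.Agent.N483.Fan

universe u

/-- a space concentrated, up to fewer than `d` points, on a countable set, is Menger -/
theorem menger_of_concentrated {X : Type} [TopologicalSpace X] [SecondCountableTopology X]
    (F : Set X) (hF : F.Countable)
    (hX : ∀ O : Set X, IsOpen O → F ⊆ O → #(Oᶜ : Set X) < dNumber) : Menger X := by
  classical
  intro U hU hcov
  rcases isEmpty_or_nonempty X with hE | hne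
  · exact ⟨fun _ => ∅, fun n => ⟨empty_subset _, finite_empty⟩, by
      ext x; exact (hE.false x).elim⟩
  have hmem : ∀ n (x : X), ∃ u ∈ U n, x ∈ u := by
    intro n x
    have : x ∈ ⋃₀ U n := by rw [hcov]; exact mem_univ x
    exact this
  -- the countable set
  obtain ⟨e, he⟩ : ∃ e : ℕ → X, F ⊆ range e := by
    rcases F.eq_empty_or_nonempty with h | h
    · exact ⟨fun _ => Classical.arbitrary X, by rw [h]; exact empty_subset _⟩
    · obtain ⟨e, he⟩ := hF.exists_eq_range h
      exact ⟨e, he.subset⟩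
  choose u hu1 hu2 using fun k : ℕ => hmem (2 * k) (e k)
  let O : Set X := ⋃ k, u k
  have hO : IsOpen O := isOpen_iUnion fun k => hU _ _ (hu1 k)
  have hFO : F ⊆ O := by
    intro x hx
    obtain ⟨k, rfl⟩ := he hx
    exact mem_iUnion.2 ⟨k, hu2 k⟩
  have hB := hX O hO hFO
  -- countable subcovers
  have hsub : ∀ n, ∃ w : ℕ → Set X, (∀ k, w k ∈ U (2 * n + 1)) ∧ ∀ x, ∃ k, x ∈ w k := by
    intro n
    obtain ⟨T, hT1, hT2, hT3⟩ := TopologicalSpace.isOpen_sUnion_countable (U (2 * n + 1))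
      (hU (2 * n + 1))
    have hTne : T.Nonempty := by
      by_contra h
      rw [not_nonempty_iff_eq_empty] at h
      rw [hcov, h, sUnion_empty] at hT3
      have : Classical.arbitrary X ∈ (∅ : Set X) := by rw [hT3]; exact mem_univ _
      exact this
    obtain ⟨w, hw⟩ := hT1.exists_eq_range hTne
    refine ⟨w, fun k => hT2 (by rw [hw]; exact mem_range_self k), fun x => ?_⟩
    have hx : x ∈ ⋃₀ T := by rw [hT3, hcov]; exact mem_univ x
    obtain ⟨t, ht, hxt⟩ := hx
    rw [hw] at ht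
    obtain ⟨k, rfl⟩ := ht
    exact ⟨k, hxt⟩
  choose w hw1 hw2 using hsub
  let φ : X → ℕ → ℕ := fun z n => Nat.find (hw2 n z)
  have hφ : ∀ z n, z ∈ w n (φ z n) := fun z n => Nat.find_spec (hw2 n z)
  have hcard : #(φ '' Oᶜ) < dNumber := mk_image_le.trans_lt hB
  obtain ⟨h, hh⟩ := not_dominating hcard
  refine ⟨fun m => {s | s ∈ U m ∧ ((∃ k, m = 2 * k ∧ s = u k) ∨
    ∃ n k, m = 2 * n + 1 ∧ k < h n ∧ s = w n k)}, fun m => ⟨fun s hs => hs.1, ?_⟩, ?_⟩
  · refine (((finite_singleton (u (m / 2))).union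
      ((finite_Iio (h (m / 2))).image (w (m / 2))))).subset ?_
    rintro s ⟨-, ⟨k, hk, rfl⟩ | ⟨n, k, hn, hk, rfl⟩⟩
    · left
      have : m / 2 = k := by omega
      rw [this]; rfl
    · right
      have : m / 2 = n := by omega
      rw [this]
      exact ⟨k, hk, rfl⟩
  · rw [eq_univ_iff_forall]
    intro z
    by_cases hz : z ∈ O
    · obtain ⟨k, hk⟩ := mem_iUnion.1 hz
      exact mem_iUnion.2 ⟨2 * k, u k, ⟨hu1 k, Or.inl ⟨k, rfl, rfl⟩⟩, hk⟩
    · obtain ⟨n, hn⟩ := (hh (φ z) ⟨z, hz, rfl⟩).exists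
      exact mem_iUnion.2 ⟨2 * n + 1, w n (φ z n),
        ⟨hw1 n _, Or.inr ⟨n, φ z n, rfl, hn, rfl⟩⟩, hφ z n⟩

/-- the finite points of the Cantor set -/
def Fin0 : Set (ℕ → Bool) := {x | {n | x n = true}.Finite}

theorem countable_Fin0 : Fin0.Countable := by
  have hinj : Function.Injective fun x : ℕ → Bool => {n | x n = true} := by
    intro x y hxy
    funext n
    have : n ∈ {n | x n = true} ↔ n ∈ {n | y n = true} := by
      rw [show {n | x n = true} = {n | y n = true} from hxy]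
    simp only [mem_ofPred_eq] at this
    cases hx : x n <;> cases hy : y n <;> simp_all
  have h0 := Set.countable_ofPred_finite_subset (countable_univ (α := ℕ))
  have h : {s : Set ℕ | s.Finite}.Countable := by
    refine h0.mono fun s hs => ?_
    exact ⟨hs, subset_univ _⟩
  exact h.preimage hinj

/-- open sets containing the finite points -/
theorem exists_bound {O : Set (ℕ → Bool)} (hO : IsOpen O) (hF : Fin0 ⊆ O) :
    ∃ f : ℕ → ℕ, ∀ x, x ∉ O → ∀ n, ∃ k, n ≤ k ∧ k < f n ∧ x k = true := by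
  have hK : IsCompact Oᶜ := hO.isClosed_compl.isCompact
  have h : ∀ n, ∃ j : ℕ, Oᶜ ⊆ {x : ℕ → Bool | ∃ k, n ≤ k ∧ k < j ∧ x k = true} := by
    intro n
    refine hK.elim_directed_cover (fun j : ℕ => {x : ℕ → Bool | ∃ k, n ≤ k ∧ k < j ∧ x k = true})
      ?_ ?_ ?_
    · intro j
      have : {x : ℕ → Bool | ∃ k, n ≤ k ∧ k < j ∧ x k = true}
          = ⋃ k ∈ {k | n ≤ k ∧ k < j}, {x : ℕ → Bool | x k = true} := by
        ext x; simp [and_assoc]
      rw [this]
      refine isOpen_biUnion fun k _ => ?_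
      have h1 : Continuous fun x : ℕ → Bool => x k := continuous_apply k
      exact (isOpen_discrete ({true} : Set Bool)).preimage h1
    · intro x hx
      have hinf : ¬ {k | x k = true}.Finite := fun hfin => hx (hF hfin)
      obtain ⟨k, hk, hnk⟩ := (show {k | x k = true}.Infinite from hinf).exists_gt n
      exact mem_iUnion.2 ⟨k + 1, k, hnk.le, Nat.lt_succ_self k, hk⟩
    · refine directed_of_isDirected_le fun i j hij x => ?_
      rintro ⟨k, h1, h2, h3⟩
      exact ⟨k, h1, lt_of_lt_of_le h2 hij, h3⟩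
  choose f hf using h
  exact ⟨f, fun x hx n => hf n hx⟩

/-- **The space.** -/
theorem exists_space (hdr : dNumber ≤ rNumber) : ∃ X : Set (ℕ → Bool), Menger X ∧ Fin0 ⊆ X ∧
    (∀ x ∈ X, {n | x n = false}.Infinite) ∧
    ∀ h : ℕ → ℕ, ∃ E : Set (ℕ → Bool), E.Finite ∧ E ⊆ X ∧
      ∀ n m, m ≤ h n → ∃ x ∈ E, ∀ k, n ≤ k → k ≤ n + m → x k = true := by
  classical
  obtain ⟨D, hD, hdom⟩ := exists_dominating
  let I : Type := dNumber.ord.ToType
  have hI : #I = #D := by rw [hD, mk_toType, card_ord]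
  obtain ⟨ι⟩ := Cardinal.eq.1 hI
  let h : I → ℕ → ℕ := fun i => (ι i).1
  have hsmall : ∀ i : I, #(h '' Iio i) < dNumber := fun i =>
    mk_image_le.trans_lt (mk_Iio_toType_ord_lt i)
  choose x hx1 hx2 hx3 using fun i : I => exists_pair (hsmall i) hdr (h i)
  let y : I × Bool → ℕ → Bool := fun p n => decide (n ∈ x p.1 p.2)
  let X : Set (ℕ → Bool) := Fin0 ∪ range y
  have hyt : ∀ p n, y p n = true ↔ n ∈ x p.1 p.2 := fun p n => by simp [y]
  refine ⟨X, ?_, subset_union_left, ?_, ?_⟩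
  · refine menger_of_concentrated (Subtype.val ⁻¹' Fin0)
      (countable_Fin0.preimage Subtype.val_injective) ?_
    intro O hO hFO
    obtain ⟨O', hO', rfl⟩ := isOpen_induced_iff.1 hO
    have hFO' : Fin0 ⊆ O' := fun z hz => @hFO (⟨z, Or.inl hz⟩ : X) hz
    obtain ⟨f, hf⟩ := exists_bound hO' hFO'
    obtain ⟨g, hg, hfg⟩ := hdom f
    obtain ⟨i0, hi0⟩ := ι.surjective ⟨g, hg⟩
    have hgi : h i0 = g := congrArg Subtype.val hi0
    -- the exceptional points have index at most `i0`
    have hsub : (Subtype.val '' ((Subtype.val ⁻¹' O')ᶜ : Set X)) ⊆ y '' (Iic i0 ×ˢ Set.univ) := by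
      rintro _ ⟨⟨z, hz⟩, hzO, rfl⟩
      have hzO' : z ∉ O' := hzO
      rcases hz with hz | ⟨⟨i, b⟩, rfl⟩
      · exact absurd (hFO' hz) hzO'
      · refine ⟨(i, b), ⟨?_, mem_univ _⟩, rfl⟩
        by_contra hlt
        rw [mem_Iic, not_le] at hlt
        have h1 := hx3 i b g ⟨i0, hlt, hgi⟩
        obtain ⟨n, hn1, hn2⟩ := (h1.and_eventually hfg).exists
        obtain ⟨k, hk1, hk2, hk3⟩ := hf _ hzO' n
        exact hn1 k hk1 (by omega) ((hyt (i, b) k).1 hk3)
    have h1 : #((Subtype.val ⁻¹' O')ᶜ : Set X)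
        = #(Subtype.val '' ((Subtype.val ⁻¹' O')ᶜ : Set X)) :=
      (mk_image_eq Subtype.val_injective).symm
    rw [h1]
    refine (mk_le_mk_of_subset hsub).trans_lt (mk_image_le.trans_lt ?_)
    have h2 : #(Iic i0) < dNumber := by
      rw [← Iio_insert]
      refine mk_insert_le.trans_lt ?_
      exact add_lt_of_lt aleph0_lt_dNumber.le (mk_Iio_toType_ord_lt i0)
        (one_lt_aleph0.trans aleph0_lt_dNumber)
    rw [mk_setProd, mk_univ]
    simp only [lift_id, mk_fintype, Fintype.card_bool]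
    exact mul_lt_of_lt aleph0_lt_dNumber.le h2
      ((nat_lt_aleph0 2).trans aleph0_lt_dNumber)
  · rintro z (hz | ⟨⟨i, b⟩, rfl⟩)
    · have h1 : {n | z n = false} = {n | z n = true}ᶜ := by
        ext n
        simp
      rw [h1]
      exact Set.Finite.infinite_compl hz
    · have h1 : {n | y (i, b) n = false} = (x i b)ᶜ := by
        ext n
        simp [y]
      rw [h1]
      exact hx2 i b
  · intro g
    obtain ⟨f, hf, hgf⟩ := hdom g
    obtain ⟨i0, hi0⟩ := ι.surjective ⟨f, hf⟩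
    have hfi : h i0 = f := congrArg Subtype.val hi0
    obtain ⟨n0, hn0⟩ := eventually_atTop.1 hgf
    -- a finite point for the first columns
    let z : ℕ → Bool := fun k => decide (k ≤ n0 + ∑ j ∈ Finset.range n0, g j)
    have hz : z ∈ Fin0 := by
      refine (finite_Iic (n0 + ∑ j ∈ Finset.range n0, g j)).subset fun k hk => ?_
      have : z k = true := hk
      simpa [z] using this
    refine ⟨{z, y (i0, true), y (i0, false)}, by simp, ?_, ?_⟩
    · rintro w (rfl | rfl | rfl)
      · exact Or.inl hz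
      · exact Or.inr ⟨_, rfl⟩
      · exact Or.inr ⟨_, rfl⟩
    · intro n m hm
      rcases lt_or_ge n n0 with hn | hn
      · refine ⟨z, Or.inl rfl, fun k _ hk => ?_⟩
        have h1 : g n ≤ ∑ j ∈ Finset.range n0, g j :=
          Finset.single_le_sum (f := g) (fun _ _ => Nat.zero_le _) (Finset.mem_range.2 hn)
        simp only [z, decide_eq_true_eq]
        omega
      · have h1 := hn0 n hn
        obtain ⟨b, hb⟩ := hx1 i0 n m (by rw [hfi]; exact hm.trans h1)
        refine ⟨y (i0, b), ?_, fun k hk1 hk2 => (hyt _ _).2 (hb k hk1 hk2)⟩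
        cases b
        · exact Or.inr (Or.inr rfl)
        · exact Or.inr (Or.inl rfl)

end Pool.Agent.N483.Fan
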