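import Mathlib
import Pool.Agent.N483.Fan.Space

set_option autoImplicit false

open Set Filter Topology Cardinal

namespace Pool.Agent.N483.Fan

/-- the points all of whose coordinates in `[n, n + m]` are `true` -/
def block (n m : ℕ) : Set (ℕ → Bool) := {x | ∀ k, n ≤ k → k ≤ n + m → x k = true}

theorem isClopen_block (n m : ℕ) : IsClopen (block n m) := by
  have : block n m = ⋂ k ∈ Finset.Icc n (n + m), {x : ℕ → Bool | x k = true} := by
    ext x
    simp [block]
  rw [this]
  refine isClopen_biInter_finset fun k _ => ?_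
  have h1 : Continuous fun x : ℕ → Bool => x k := continuous_apply k
  exact (isClopen_discrete ({true} : Set Bool)).preimage h1

open Classical in
/-- the function of the embedding attached to an isolated point of the fan -/
noncomputable def gfun (X : Set (ℕ → Bool)) (n m : ℕ) : X → ℝ :=
  fun x => if (x : ℕ → Bool) ∈ block n m then (Nat.pair n m + 1 : ℝ) else 0

theorem continuous_gfun (X : Set (ℕ → Bool)) (n m : ℕ) : Continuous (gfun X n m) := by
  classical
  unfold gfun
  have h : IsClopen (Subtype.val ⁻¹' block n m : Set X) :=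
    (isClopen_block n m).preimage continuous_subtype_val
  refine continuous_if (fun a ha => ?_) continuous_const.continuousOn
    continuous_const.continuousOn
  have h2 : frontier {x : X | (x : ℕ → Bool) ∈ block n m} = ∅ := h.frontier_eq
  rw [h2] at ha
  exact ha.elim

/-- the map on the sum of the convergent sequences -/
noncomputable def gmap (X : Set (ℕ → Bool)) (p : ℕ × OnePoint ℕ) : Cp X :=
  OnePoint.elim p.2 (⟨fun _ => 0, continuous_const⟩ : Cp X)
    (fun m => ⟨gfun X p.1 m, continuous_gfun X p.1 m⟩)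

theorem gmap_infty (X : Set (ℕ → Bool)) (n : ℕ) :
    gmap X (n, OnePoint.infty) = ⟨fun _ => 0, continuous_const⟩ := rfl

theorem gmap_coe (X : Set (ℕ → Bool)) (n m : ℕ) :
    gmap X (n, (m : OnePoint ℕ)) = ⟨gfun X n m, continuous_gfun X n m⟩ := rfl

theorem continuous_gmap {X : Set (ℕ → Bool)} (hX : ∀ x ∈ X, {n | x n = false}.Infinite) :
    Continuous (gmap X) := by
  refine continuous_prod_of_discrete_left.2 fun n => ?_
  rw [OnePoint.continuous_iff_from_nat]
  rw [gmap_infty]
  rw [tendsto_subtype_rng]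
  rw [tendsto_pi_nhds]
  intro x
  refine tendsto_const_nhds.congr' ?_
  obtain ⟨k, hk1, hk2⟩ := (hX x x.2).exists_gt n
  filter_upwards [eventually_ge_atTop k] with m hm
  rw [gmap_coe]
  have : (x : ℕ → Bool) ∉ block n m := by
    intro h
    have h1 := h k hk2.le (by omega)
    have h2 : (x : ℕ → Bool) k = false := hk1
    rw [h1] at h2
    exact absurd h2 (by simp)
  simp [gfun, this]

/-- the embedding of the fan -/
noncomputable def emb (X : Set (ℕ → Bool)) : SeqFan → Cp X :=
  Quot.lift (gmap X) (by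
    rintro ⟨n, a⟩ ⟨m, b⟩ (h | ⟨h1, h2⟩)
    · rw [h]
    · simp only at h1 h2
      subst h1
      subst h2
      rfl)

/-- the finite point of a block -/
def fpt (n m : ℕ) : ℕ → Bool := fun k => decide (n ≤ k ∧ k ≤ n + m)

theorem fpt_mem_Fin0 (n m : ℕ) : fpt n m ∈ Fin0 := by
  refine (finite_Iic (n + m)).subset fun k hk => ?_
  have h : fpt n m k = true := hk
  simp only [fpt, decide_eq_true_eq] at h
  exact h.2

theorem fpt_mem_block (n m : ℕ) : fpt n m ∈ block n m := by
  intro k h1 h2
  simp [fpt, h1, h2]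

theorem isEmbedding_emb {X : Set (ℕ → Bool)} (h0 : Fin0 ⊆ X)
    (hX : ∀ x ∈ X, {n | x n = false}.Infinite)
    (hE : ∀ h : ℕ → ℕ, ∃ E : Set (ℕ → Bool), E.Finite ∧ E ⊆ X ∧
      ∀ n m, m ≤ h n → ∃ x ∈ E, ∀ k, n ≤ k → k ≤ n + m → x k = true) :
    IsEmbedding (emb X) := by
  have hcont : Continuous (emb X) := continuous_quot_lift _ (continuous_gmap hX)
  -- points of the fan
  have hpt : ∀ q : SeqFan, (∀ n, q = Quot.mk _ (n, OnePoint.infty)) ∨
      ∃ n m : ℕ, q = Quot.mk _ (n, (m : OnePoint ℕ)) := by
    intro q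
    induction q using Quot.inductionOn with
    | h p =>
      obtain ⟨n, a⟩ := p
      induction a using OnePoint.rec with
      | infty =>
        left
        intro k
        exact Quot.sound (Or.inr ⟨rfl, rfl⟩)
      | coe m => exact Or.inr ⟨n, m, rfl⟩
  have hval1 : ∀ n, emb X (Quot.mk _ (n, OnePoint.infty)) = ⟨fun _ => 0, continuous_const⟩ :=
    fun n => rfl
  have hval2 : ∀ n m : ℕ, emb X (Quot.mk _ (n, (m : OnePoint ℕ))) =
      ⟨gfun X n m, continuous_gfun X n m⟩ := fun n m => rfl
  -- the isolated points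
  have hiso : ∀ (n m : ℕ) (q : SeqFan),
      |(emb X q).1 ⟨fpt n m, h0 (fpt_mem_Fin0 n m)⟩ - (Nat.pair n m + 1 : ℝ)| < 1 →
      q = Quot.mk _ (n, (m : OnePoint ℕ)) := by
    intro n m q hq
    rcases hpt q with h | ⟨n', m', rfl⟩
    · rw [h 0, hval1] at hq
      simp only [zero_sub, abs_neg] at hq
      rw [abs_of_nonneg (by positivity)] at hq
      have : (0 : ℝ) ≤ Nat.pair n m := Nat.cast_nonneg _
      linarith
    · rw [hval2] at hq
      simp only [gfun] at hq
      split_ifs at hq with hb
      · have h1 : |((Nat.pair n' m' : ℤ) : ℝ) - ((Nat.pair n m : ℤ) : ℝ)| < 1 := by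
          push_cast
          have : (Nat.pair n' m' + 1 : ℝ) - (Nat.pair n m + 1) = Nat.pair n' m' - Nat.pair n m := by
            ring
          rw [this] at hq
          exact hq
        have h2 : |(Nat.pair n' m' : ℤ) - (Nat.pair n m : ℤ)| < 1 := by
          exact_mod_cast h1
        have h3 : (Nat.pair n' m' : ℤ) = (Nat.pair n m : ℤ) := by
          rw [Int.abs_lt_one_iff] at h2
          omega
        have h4 : Nat.pair n' m' = Nat.pair n m := by exact_mod_cast h3
        rw [Nat.pair_eq_pair] at h4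
        rw [h4.1, h4.2]
      · simp only [zero_sub, abs_neg] at hq
        rw [abs_of_nonneg (by positivity)] at hq
        have : (0 : ℝ) ≤ Nat.pair n m := Nat.cast_nonneg _
        linarith
  have hself : ∀ n m : ℕ, (emb X (Quot.mk _ (n, (m : OnePoint ℕ)))).1
      ⟨fpt n m, h0 (fpt_mem_Fin0 n m)⟩ = (Nat.pair n m + 1 : ℝ) := by
    intro n m
    rw [hval2]
    simp [gfun, fpt_mem_block]
  -- evaluation is continuous
  have hev : ∀ x : X, Continuous fun g : Cp X => g.1 x := fun x =>
    (continuous_apply x).comp continuous_subtype_val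
  refine ⟨isInducing_iff_nhds.2 fun p => ?_, ?_⟩
  · refine le_antisymm (hcont.tendsto p).le_comap ?_
    intro U hU
    rw [mem_comap]
    rcases hpt p with hp | ⟨n, m, rfl⟩
    · obtain ⟨U', hU'U, hU'o, hpU'⟩ := mem_nhds_iff.1 hU
      have hpre : IsOpen ((Quot.mk _ : ℕ × OnePoint ℕ → SeqFan) ⁻¹' U') :=
        hU'o.preimage continuous_quot_mk
      have hex : ∀ n, ∃ k : ℕ, ∀ m : ℕ, k < m → (Quot.mk _ (n, (m : OnePoint ℕ)) : SeqFan) ∈ U' := by
        intro n
        have h1 : Continuous fun a : OnePoint ℕ => (n, a) := by fun_prop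
        have h2 := hpre.preimage h1
        have h3 : (OnePoint.infty : OnePoint ℕ) ∈
            (fun a : OnePoint ℕ => (n, a)) ⁻¹' ((Quot.mk _ : ℕ × OnePoint ℕ → SeqFan) ⁻¹' U') := by
          change (Quot.mk _ (n, OnePoint.infty) : SeqFan) ∈ U'
          rw [← hp n]
          exact hpU'
        have h4 : Tendsto (fun m : ℕ => (m : OnePoint ℕ)) atTop (𝓝 OnePoint.infty) := by
          have := (OnePoint.continuous_iff_from_nat (id : OnePoint ℕ → OnePoint ℕ)).1 continuous_id
          exact this
        have h5 := h4 (h2.mem_nhds h3)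
        obtain ⟨k, hk⟩ := eventually_atTop.1 (show ∀ᶠ m : ℕ in atTop, (m : OnePoint ℕ) ∈ _ from h5)
        exact ⟨k, fun m hm => hk m hm.le⟩
      choose h hh using hex
      obtain ⟨E, hEfin, hEX, hE'⟩ := hE h
      refine ⟨⋂ x ∈ E, {g : Cp X | ∀ hx : x ∈ X, |g.1 ⟨x, hx⟩| < 1}, ?_, ?_⟩
      · rw [hp 0, hval1]
        refine (biInter_mem hEfin).2 fun x hx => ?_
        have hxX := hEX hx
        have h1 : {g : Cp X | ∀ hx : x ∈ X, |g.1 ⟨x, hx⟩| < 1}
            = (fun g : Cp X => |g.1 ⟨x, hxX⟩|) ⁻¹' Iio 1 := by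
          ext g
          exact ⟨fun h => h hxX, fun h _ => h⟩
        rw [h1]
        refine (isOpen_Iio.preimage (hev ⟨x, hxX⟩).abs).mem_nhds ?_
        simp
      · intro q hq
        apply hU'U
        rcases hpt q with h1 | ⟨n, m, rfl⟩
        · rw [h1 0, ← hp 0]
          exact hpU'
        · apply hh
          by_contra hle
          rw [not_lt] at hle
          obtain ⟨x, hxE, hx⟩ := hE' n m hle
          have h1 := mem_iInter₂.1 (show emb X (Quot.mk _ (n, (m : OnePoint ℕ))) ∈ _ from hq) x hxE
          have h2 := h1 (hEX hxE)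
          rw [hval2] at h2
          have h3 : x ∈ block n m := hx
          simp only [gfun, h3, if_true] at h2
          rw [abs_of_nonneg (by positivity)] at h2
          have : (0 : ℝ) ≤ Nat.pair n m := Nat.cast_nonneg _
          linarith
    · refine ⟨{g : Cp X | |g.1 ⟨fpt n m, h0 (fpt_mem_Fin0 n m)⟩ - (Nat.pair n m + 1 : ℝ)| < 1},
        ?_, ?_⟩
      · refine IsOpen.mem_nhds ?_ ?_
        · exact isOpen_Iio.preimage (((hev _).sub continuous_const).abs)
        · simp only [mem_ofPred_eq]
          rw [hself]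
          simp
      · intro q hq
        rw [hiso n m q hq]
        exact mem_of_mem_nhds hU
  · intro p q hpq
    rcases hpt p with hp | ⟨n, m, rfl⟩
    · rcases hpt q with hq | ⟨n, m, rfl⟩
      · rw [hp 0, hq 0]
      · refine hiso n m p ?_
        rw [hpq, hself]
        simp
    · refine (hiso n m q ?_).symm
      rw [← hpq, hself]
      simp

/-- **Positive side.** -/
theorem exists_menger_fan (hdr : dNumber ≤ rNumber) :
    ∃ (X : Type) (_ : TopologicalSpace X), T35Space X ∧ Menger X ∧
      ∃ f : SeqFan → Cp X, IsEmbedding f := by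
  obtain ⟨X, h1, h2, h3, h4⟩ := exists_space hdr
  exact ⟨X, inferInstance, inferInstance, h1, emb X, isEmbedding_emb h2 h3 h4⟩

end Pool.Agent.N483.Fan
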