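import Mathlib
import Pool.Agent.N483.Fan.Basic

set_option autoImplicit false

open Set Filter Topology

namespace Pool.Agent.N483.Fan

universe u v

theorem exists_finite_preimage {α β : Type*} (f : α → β) {s : Set α} {t : Set β}
    (ht : t ⊆ f '' s) (hfin : t.Finite) : ∃ w ⊆ s, w.Finite ∧ f '' w = t :=
  (Set.exists_subset_image_finite_and (p := fun r => r = t)).1 ⟨t, ht, hfin, rfl⟩

/-- continuous images of Menger spaces -/
theorem Menger.image {X : Type u} {Y : Type v} [TopologicalSpace X] [TopologicalSpace Y]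
    (hX : Menger X) (φ : X → Y) (hφ : Continuous φ) (hs : Function.Surjective φ) : Menger Y := by
  intro U hU hcov
  obtain ⟨V, hV1, hV2⟩ := hX (fun n => (fun s => φ ⁻¹' s) '' U n)
    (by
      rintro n _ ⟨s, hs, rfl⟩
      exact (hU n s hs).preimage hφ)
    (by
      intro n
      rw [eq_univ_iff_forall]
      intro x
      have : φ x ∈ ⋃₀ U n := by rw [hcov]; exact mem_univ _
      obtain ⟨s, hs, hxs⟩ := this
      exact ⟨_, ⟨s, hs, rfl⟩, hxs⟩)
  have hch : ∀ n, ∃ W : Set (Set Y), W ⊆ U n ∧ W.Finite ∧ V n = (fun s => φ ⁻¹' s) '' W := by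
    intro n
    obtain ⟨W, hW1, hW2, hW3⟩ := exists_finite_preimage (fun s => φ ⁻¹' s) (hV1 n).1 (hV1 n).2
    exact ⟨W, hW1, hW2, hW3.symm⟩
  choose W hW1 hW2 hW3 using hch
  refine ⟨W, fun n => ⟨hW1 n, hW2 n⟩, ?_⟩
  rw [eq_univ_iff_forall]
  intro y
  obtain ⟨x, rfl⟩ := hs y
  have : x ∈ ⋃ n, ⋃₀ V n := by rw [hV2]; exact mem_univ _
  obtain ⟨n, hn⟩ := mem_iUnion.1 this
  rw [hW3 n] at hn
  obtain ⟨_, ⟨s, hs, rfl⟩, hxs⟩ := hn
  exact mem_iUnion.2 ⟨n, s, hs, hxs⟩

/-- increasing covers are covered infinitely often -/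
theorem Menger.increasing {X : Type u} [TopologicalSpace X] (hX : Menger X)
    (W : ℕ → ℕ → Set X) (hW : ∀ n j, IsOpen (W n j)) (hmono : ∀ n, Monotone (W n))
    (hcov : ∀ n x, ∃ j, x ∈ W n j) :
    ∃ g : ℕ → ℕ, ∀ x, ∃ᶠ n in atTop, x ∈ W n (g n) := by
  have h1 : ∀ n0, ∃ g : ℕ → ℕ, ∀ x, ∃ n, n0 ≤ n ∧ x ∈ W n (g n) := by
    intro n0
    obtain ⟨V, hV1, hV2⟩ := hX (fun n => range (W (n0 + n)))
      (by
        rintro n _ ⟨j, rfl⟩
        exact hW _ _)
      (by
        intro n
        rw [eq_univ_iff_forall]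
        intro x
        obtain ⟨j, hj⟩ := hcov (n0 + n) x
        exact ⟨_, ⟨j, rfl⟩, hj⟩)
    have h2 : ∀ n, ∃ b, ⋃₀ V n ⊆ W (n0 + n) b := by
      intro n
      obtain ⟨J, -, hJ2, hJ3⟩ := exists_finite_preimage (W (n0 + n)) (s := Set.univ)
        (by rw [image_univ]; exact (hV1 n).1) (hV1 n).2
      obtain ⟨b, hb⟩ := hJ2.bddAbove
      refine ⟨b, ?_⟩
      rw [← hJ3]
      rintro x ⟨_, ⟨j, hj, rfl⟩, hx⟩
      exact hmono _ (hb hj) hx
    choose b hb using h2
    refine ⟨fun n => b (n - n0), fun x => ?_⟩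
    have hx : x ∈ ⋃ n, ⋃₀ V n := by rw [hV2]; exact mem_univ _
    obtain ⟨n, hn⟩ := mem_iUnion.1 hx
    refine ⟨n0 + n, by omega, ?_⟩
    have h3 := hb n hn
    have h4 : n0 + n - n0 = n := by omega
    simp only [h4]
    exact h3
  choose g hg using h1
  refine ⟨fun n => ∑ i ∈ Finset.range (n + 1), g i n, fun x => ?_⟩
  rw [frequently_atTop]
  intro n0
  obtain ⟨n, hn, hx⟩ := hg n0 x
  refine ⟨n, hn, hmono n ?_ hx⟩
  exact Finset.single_le_sum (f := fun i => g i n) (fun _ _ => Nat.zero_le _)
    (Finset.mem_range.2 (by omega))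

/-- one of countably many classes of functions is dominating -/
theorem exists_dominating_class {ι : Type} [Countable ι] (c : (ℕ → ℕ) → ι) :
    ∃ i, Dominating {h | c h = i} := by
  by_contra hcon
  push Not at hcon
  unfold Dominating at hcon
  push Not at hcon
  choose g hg using hcon
  rcases isEmpty_or_nonempty ι with hE | hne
  · exact hE.false (c 0)
  obtain ⟨e, he⟩ := exists_surjective_nat ι
  let G : ℕ → ℕ := fun n => ∑ k ∈ Finset.range (n + 1), g (e k) n
  obtain ⟨k, hk⟩ := he (c G)
  have h1 := hg (e k) G (by simp [hk])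
  obtain ⟨n, hn1, hn2⟩ := (h1.and_eventually (eventually_ge_atTop k)).exists
  have h2 : g (e k) n ≤ G n :=
    Finset.single_le_sum (f := fun k => g (e k) n) (fun _ _ => Nat.zero_le _)
      (Finset.mem_range.2 (by omega))
  omega

/-- restriction of an embedding into a function space to a quotient of the domain -/
theorem embedding_of_factor {X : Type u} {Z : Type v} [TopologicalSpace X] [TopologicalSpace Z]
    {S : Type} [TopologicalSpace S] (φ : X → Z) (hφ : Continuous φ)
    (hs : Function.Surjective φ) (F : S → Cp X) (hF : IsEmbedding F) (G : S → Cp Z)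
    (hG : ∀ q x, (F q).1 x = (G q).1 (φ x)) : IsEmbedding G := by
  let R : Cp Z → Cp X := fun g => ⟨g.1 ∘ φ, g.2.comp hφ⟩
  have hRc : Continuous R := by
    refine Continuous.subtype_mk (continuous_pi fun x => ?_) _
    exact (continuous_apply (φ x)).comp continuous_subtype_val
  have hRG : R ∘ G = F := by
    funext q
    apply Subtype.ext
    funext x
    exact (hG q x).symm
  have hGc : Continuous G := by
    refine Continuous.subtype_mk (continuous_pi fun z => ?_) _
    obtain ⟨x, rfl⟩ := hs z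
    have h1 : (fun q => (G q).1 (φ x)) = fun q => (F q).1 x := by
      funext q
      exact (hG q x).symm
    rw [h1]
    exact (continuous_apply x).comp (continuous_subtype_val.comp hF.continuous)
  exact IsEmbedding.of_comp hGc hRc (by rw [hRG]; exact hF)

theorem reduction {X : Type u} [TopologicalSpace X] (hX : Menger X) (f : SeqFan → Cp X)
    (hf : IsEmbedding f) :
    ∃ Z : Set (ℕ → ℝ), (∃ φ : X → Z, Continuous φ ∧ Function.Surjective φ) ∧ Menger Z ∧
      (∃ g : SeqFan → Cp Z, IsEmbedding g) ∧ ∃ N : ℕ, ¬ Menger (Fin N → Z) := by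
  classical
  let star : SeqFan := Quot.mk _ (0, OnePoint.infty)
  have hstar : ∀ n, (Quot.mk _ (n, OnePoint.infty) : SeqFan) = star := fun n =>
    Quot.sound (Or.inr ⟨rfl, rfl⟩)
  let pt : ℕ → ℕ → SeqFan := fun n m => Quot.mk _ (n, (m : OnePoint ℕ))
  -- the functions
  let F : ℕ → ℕ → X → ℝ := fun n m x => (f (pt n m)).1 x - (f star).1 x
  have hFc : ∀ n m, Continuous (F n m) := fun n m => (f (pt n m)).2.sub (f star).2
  have hlim : ∀ n x, Tendsto (fun m => F n m x) atTop (𝓝 0) := by
    intro n x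
    have h1 : Continuous fun a : OnePoint ℕ => (f (Quot.mk _ (n, a))).1 x := by
      have h2 : Continuous fun a : OnePoint ℕ => (Quot.mk _ (n, a) : SeqFan) :=
        continuous_quot_mk.comp (by fun_prop)
      exact (continuous_apply x).comp (continuous_subtype_val.comp (hf.continuous.comp h2))
    have h3 := (OnePoint.continuous_iff_from_nat _).1 h1
    simp only [hstar] at h3
    have h4 := h3.sub_const ((f star).1 x)
    rw [sub_self] at h4
    exact h4
  -- neighbourhoods of the non-isolated point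
  have hkey : ∀ h : ℕ → ℕ, ∃ (k N : ℕ) (e : Fin N → X),
      ∀ n m, m ≤ h n → ∃ i, 1 / ((k : ℝ) + 1) ≤ |F n m (e i)| := by
    intro h
    let S : Set (ℕ × OnePoint ℕ) := {p | ∀ m : ℕ, p.2 = (m : OnePoint ℕ) → h p.1 < m}
    let U : Set SeqFan := {q | ∀ p : ℕ × OnePoint ℕ, Quot.mk _ p = q → p ∈ S}
    -- `U` is open
    have hrel : ∀ p q : ℕ × OnePoint ℕ, (Quot.mk _ p : SeqFan) = Quot.mk _ q →
        (p ∈ S ↔ q ∈ S) := by
      let T : SeqFan → Prop := Quot.lift (fun p => p ∈ S) (by
        rintro p q (h1 | ⟨h1, h2⟩)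
        · rw [h1]
        · have hp : p ∈ S := fun m hm => absurd (h1.symm.trans hm) (OnePoint.infty_ne_coe m)
          have hq : q ∈ S := fun m hm => absurd (h2.symm.trans hm) (OnePoint.infty_ne_coe m)
          exact propext ⟨fun _ => hq, fun _ => hp⟩)
      intro p q hpq
      have : T (Quot.mk _ p) = T (Quot.mk _ q) := by rw [hpq]
      exact iff_of_eq this
    have hpre : (Quot.mk _ : ℕ × OnePoint ℕ → SeqFan) ⁻¹' U = S := by
      ext p
      exact ⟨fun hp => hp p rfl, fun hp q hq => (hrel q p hq).2 hp⟩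
    have hSo : IsOpen S := by
      have h1 : S = ⋃ n : ℕ, {n} ×ˢ ((fun m : ℕ => (m : OnePoint ℕ)) '' Iic (h n))ᶜ := by
        ext ⟨n, a⟩
        simp only [S, mem_ofPred_eq, mem_iUnion, mem_prod, mem_singleton_iff, mem_compl_iff,
          mem_image, mem_Iic, not_exists, not_and]
        constructor
        · intro h1
          exact ⟨n, rfl, fun m hm hma => absurd (h1 m hma.symm) (not_lt.2 hm)⟩
        · rintro ⟨_, rfl, h1⟩ m hm
          by_contra h2
          exact h1 m (not_lt.1 h2) hm.symm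
      rw [h1]
      refine isOpen_iUnion fun n => (isOpen_discrete _).prod ?_
      exact ((finite_Iic (h n)).image _).isClosed.isOpen_compl
    have hUo : IsOpen U := by
      rw [← isQuotientMap_quot_mk.isOpen_preimage, hpre]
      exact hSo
    have hstarU : star ∈ U := by
      intro p hp
      rw [hrel p (0, OnePoint.infty) hp]
      intro m hm
      exact absurd hm (OnePoint.infty_ne_coe m)
    have hU : U ∈ 𝓝 star := hUo.mem_nhds hstarU
    rw [hf.isInducing.nhds_eq_comap, mem_comap] at hU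
    obtain ⟨V, hV, hVU⟩ := hU
    rw [mem_nhds_induced] at hV
    obtain ⟨V', hV', hV'V⟩ := hV
    rw [nhds_pi, Filter.mem_pi] at hV'
    obtain ⟨I, hI, t, ht, htV⟩ := hV'
    -- a common radius
    have hrad : ∀ x : X, ∃ k : ℕ, ∀ r : ℝ, |r - (f star).1 x| < 1 / ((k : ℝ) + 1) → r ∈ t x := by
      intro x
      obtain ⟨ε, hε, hε2⟩ := Metric.mem_nhds_iff.1 (ht x)
      obtain ⟨k, hk⟩ := exists_nat_one_div_lt hε
      refine ⟨k, fun r hr => hε2 ?_⟩
      rw [Metric.mem_ball, Real.dist_eq]
      exact hr.trans hk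
    choose κ hκ using hrad
    obtain ⟨K, hK⟩ := (hI.image κ).bddAbove
    obtain ⟨N, e, he⟩ : ∃ (N : ℕ) (e : Fin N → X), range e = I := by
      have := hI.fintype
      obtain ⟨N, ⟨e⟩⟩ : ∃ N, Nonempty (Fin N ≃ I) := ⟨_, ⟨(Fintype.equivFin I).symm⟩⟩
      refine ⟨N, fun i => (e i : X), ?_⟩
      ext x
      constructor
      · rintro ⟨i, rfl⟩
        exact (e i).2
      · intro hx
        exact ⟨e.symm ⟨x, hx⟩, by simp⟩
    refine ⟨K, N, e, fun n m hm => ?_⟩
    by_contra hcon
    push Not at hcon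
    have h1 : f (pt n m) ∈ V := by
      apply hV'V
      apply htV
      intro x hx
      rw [← he] at hx
      obtain ⟨i, rfl⟩ := hx
      apply hκ
      refine (hcon i).trans_le ?_
      have h2 : κ (e i) ≤ K := hK ⟨e i, by rw [← he]; exact mem_range_self i, rfl⟩
      have h3 : (κ (e i) : ℝ) ≤ K := by exact_mod_cast h2
      exact one_div_le_one_div_of_le (by positivity) (by linarith)
    have h2 : pt n m ∈ U := hVU h1
    have h3 := h2 (n, (m : OnePoint ℕ)) rfl m rfl
    simp only at h3
    omega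
  choose κ ν e he using hkey
  obtain ⟨⟨k, N⟩, hdom⟩ := exists_dominating_class (fun h => (κ h, ν h))
  -- the set of reals
  let Φ : X → ℕ → ℝ := fun x j => F j.unpair.1 j.unpair.2 x
  have hΦ : Continuous Φ := continuous_pi fun j => hFc _ _
  have hφc : Continuous (rangeFactorization Φ) := hΦ.subtype_mk _
  have hφs : Function.Surjective (rangeFactorization Φ) := rangeFactorization_surjective
  -- the fan inside the function space of the image
  have hfan : ∃ g : SeqFan → Cp (range Φ), IsEmbedding g := by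
    have hT : IsEmbedding (fun q => (⟨fun x => (f q).1 x - (f star).1 x,
        (f q).2.sub (f star).2⟩ : Cp X)) := by
      let τ : Cp X → Cp X := fun g => ⟨fun x => g.1 x - (f star).1 x, g.2.sub (f star).2⟩
      let τ' : Cp X → Cp X := fun g => ⟨fun x => g.1 x + (f star).1 x, g.2.add (f star).2⟩
      have h1 : Continuous τ := by
        refine Continuous.subtype_mk (continuous_pi fun x => ?_) _
        exact ((continuous_apply x).comp continuous_subtype_val).sub continuous_const
      have h2 : Continuous τ' := by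
        refine Continuous.subtype_mk (continuous_pi fun x => ?_) _
        exact ((continuous_apply x).comp continuous_subtype_val).add continuous_const
      have h3 : Function.LeftInverse τ' τ := by
        intro g
        apply Subtype.ext
        funext x
        simp [τ, τ']
      exact (IsEmbedding.of_leftInverse h3 h2 h1).comp hf
    have hch : ∀ q : SeqFan, ∃ g : Cp (range Φ), ∀ x,
        (f q).1 x - (f star).1 x = g.1 (rangeFactorization Φ x) := by
      intro q
      induction q using Quot.inductionOn with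
      | h p =>
        obtain ⟨n, a⟩ := p
        induction a using OnePoint.rec with
        | infty =>
          refine ⟨⟨fun _ => 0, continuous_const⟩, fun x => ?_⟩
          rw [hstar]
          simp
        | coe m =>
          refine ⟨⟨fun z => z.1 (Nat.pair n m),
            (continuous_apply _).comp continuous_subtype_val⟩, fun x => ?_⟩
          simp only [rangeFactorization, Φ, Nat.unpair_pair]
          rfl
    choose G hG using hch
    exact ⟨G, embedding_of_factor _ hφc hφs _ hT G hG⟩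
  refine ⟨range Φ, ⟨rangeFactorization Φ, hφc, hφs⟩, hX.image _ hφc hφs, hfan, N, fun hN => ?_⟩
  let W : ℕ → ℕ → Set (Fin N → range Φ) := fun n j =>
    {z | ∃ m, m ≤ j ∧ ∀ i, |(z i : ℕ → ℝ) (Nat.pair n m)| < 1 / ((k : ℝ) + 1)}
  have hW1 : ∀ n j, IsOpen (W n j) := by
    intro n j
    have h1 : W n j = ⋃ m ∈ Iic j, ⋂ i, {z | |(z i : ℕ → ℝ) (Nat.pair n m)| < 1 / ((k : ℝ) + 1)} := by
      ext z
      simp [W]
    rw [h1]
    refine isOpen_biUnion fun m _ => isOpen_iInter_of_finite fun i => ?_
    have h2 : Continuous fun z : Fin N → range Φ => |(z i : ℕ → ℝ) (Nat.pair n m)| := by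
      have h3 : Continuous fun z : Fin N → range Φ => (z i : ℕ → ℝ) :=
        continuous_subtype_val.comp (continuous_apply i)
      exact ((continuous_apply _).comp h3).abs
    exact isOpen_Iio.preimage h2
  have hW2 : ∀ n, Monotone (W n) := by
    intro n a b hab z
    rintro ⟨m, hm, h1⟩
    exact ⟨m, le_trans hm hab, h1⟩
  have hW3 : ∀ n x, ∃ j, x ∈ W n j := by
    intro n z
    have h1 : ∀ i, ∀ᶠ m in atTop, |(z i : ℕ → ℝ) (Nat.pair n m)| < 1 / ((k : ℝ) + 1) := by
      intro i
      obtain ⟨x, hx⟩ := (z i).2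
      have h2 : Tendsto (fun m => |F n m x|) atTop (𝓝 0) := by
        have := (hlim n x).abs
        simpa using this
      have h3 : (0 : ℝ) < 1 / ((k : ℝ) + 1) := by positivity
      filter_upwards [h2.eventually_lt_const h3] with m hm
      rw [← hx]
      simp only [Φ, Nat.unpair_pair]
      exact hm
    obtain ⟨m, hm⟩ := (eventually_all.2 h1).exists
    exact ⟨m, m, le_rfl, hm⟩
  obtain ⟨g, hg⟩ := hN.increasing W hW1 hW2 hW3
  obtain ⟨h, hh, hgh⟩ := hdom g
  have hh1 : κ h = k := congrArg Prod.fst hh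
  have hh2 : ν h = N := congrArg Prod.snd hh
  subst hh2
  let z : Fin (ν h) → range Φ := fun i => ⟨Φ (e h i), mem_range_self _⟩
  obtain ⟨n, hn1, hn2⟩ := ((hg z).and_eventually hgh).exists
  obtain ⟨m, hm, hz⟩ := hn1
  obtain ⟨i, hi⟩ := he h n m (hm.trans hn2)
  have h1 := hz i
  simp only [z, Φ, Nat.unpair_pair] at h1
  rw [hh1] at hi
  exact absurd hi (not_le.2 h1)

end Pool.Agent.N483.Fan
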